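import Pool.Agent.Helper16.TruncMain

open CategoryTheory AlgebraicGeometry
open Pool.Agent.Helper16.Trunc

universe u

/-- Let `k` be a field, `G = SL₂` and `μ = (t ↦ diag(t^m, t⁻ᵐ))` with `m ≥ 1`.
Then the fpqc sheaf quotient `K₁ \ C^{≤ μ} / K₁` on the category of `k`-algebras is not
representable by a `k`-scheme. -/
theorem Pool.Agent.Results.MP_a35d21_ag.NotRepresentable.result
    (k : Type u) [Field k] (m : ℕ) (hm : 1 ≤ m) :
    ¬ ∃ Y : Over (Spec (CommRingCat.of k)),
      Nonempty ((truncatedQuotient k m).obj ≅ pointsOf k Y) :=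
  not_representable k m hm
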